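import Pool.Agent.H37.PC.Dcr
import Pool.Agent.H85.PC.Pair
import Pool.Agent.H15.PC.Fin
import Pool.Agent.H58.KMF.Final

/-!
# Plan C: the label inequality in dimension two, from the two parts of the theorem for one family
-/

set_option autoImplicit false

namespace Pool.PC

/-- **LKG in dimension two**, from the theorem for one family. -/
theorem lkg_fam {b : ℝ} (hb : 1 ≤ b) (hF : FAMStmt b) : Pool.LK.LKG 2 b :=
  lkg_of_fam hb (dcr_of_out hb cls_out) hF

/-- **LKG in dimension two**, from (ALPHA) and (BETA). -/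
theorem lkg_two {b : ℝ} (hb : 1 ≤ b) (hA : ALPHAStmt) (hB : BETAStmt) : Pool.LK.LKG 2 b :=
  lkg_fam hb (fam_of hb hA hB)

/-- **Q1 for `n = 3`**, from (ALPHA) and (BETA). -/
theorem q1_of (hA : ALPHAStmt) (hB : BETAStmt) {q : ENNReal}
    (hq : ENNReal.ofReal (3 / 2) < q) : Pool.KFIN.Q1 2 q :=
  Pool.KMF.q1_three le_rfl (lkg_two le_rfl hA hB) hq

end Pool.PC
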