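import Pool.Agent.H15.PC.AlFin
import Pool.Agent.H83.PC.AllC
import Pool.Agent.H73.PC.BetaT
import Pool.Agent.H37.PC.Fin

/-!
# Plan C: the label inequality, the sharp maximal inequality and Q1 in `R^3`, without hypotheses
-/

set_option autoImplicit false

namespace Pool.PC

/-- (ALPHA) is a theorem. -/
theorem alpha_thm : ALPHAStmt := alpha_of all_S

/-- The label inequality for live times in dimension two. -/
theorem lkg_two_thm {b : ℝ} (hb : 1 ≤ b) : Pool.LK.LKG 2 b := lkg_two hb alpha_thm beta_thm

/-- The sharp maximal inequality in dimension two (entropy form, all shadings). -/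
theorem mb_three_thm : Pool.KFIN.MB 2 3 := Pool.KMF.mb_three le_rfl (lkg_two_thm le_rfl)

/-- **Q1 for `n = 3`.** -/
theorem q1_thm {q : ENNReal} (hq : ENNReal.ofReal (3 / 2) < q) : Pool.KFIN.Q1 2 q :=
  q1_of alpha_thm beta_thm hq

end Pool.PC
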