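import Pool.Agent.H37.PC.Tim
import Pool.Agent.H85.PC.Vex
import Pool.Agent.H69.PC.Cls

/-!
# Plan C: the final assembly

`CLSDcr b`: the output of the class side, in the form which the theorem for one family (`FAMStmt`)
needs. With the class side and the theorem for one family: the label inequality for times with live
windows in dimension two.
-/

set_option autoImplicit false

namespace Pool.PC

open Finset Real
open Pool.Agent.H49.Ent Pool.Agent.H32.Dense Pool.STK Pool.KA Pool.KSAT Pool.K2S Pool.LK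

/-- **(CLSDcr)** The output of the class side: the class numbers `c` of `M` levels are chosen before
the mesh `n` and the error `h`; there are families with a chain of boxes at the class numbers, up to
`h`, on all events of probability at least `h`, and of small price; all labels are expensive. -/
def CLSDcr (b : ℝ) : Prop :=
  ∀ (R c₀ η : ℝ) (K : ℕ), 0 < R → 0 < c₀ → 0 < η → (cls 2 b K η R c₀).Ne →
  ∀ (M : ℕ) (δ g : ℝ), 0 < δ → 0 < g → 2 * δ + 2 * M * g ≤ R / 2 →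
    ∃ c : ℕ → Nm, (∀ k < M, (c k).Ok δ) ∧ ∀ (n : ℕ) (h : ℝ), 1 ≤ n → 0 < h → ∀ J₀ : ℕ,
      ∃ J ≥ J₀, ∃ (F : Fam 2 J) (B : ℕ → Bx F) (N : ℕ → ℝ), Dcr F K η M g c n h B N ∧
        (∀ k < M, N k ≤ 3 / 4 * R * J) ∧ ∀ L : Lbl F b, F.Vf + R * J ≤ L.cost

/-- The hypothesis `VexS` holds. -/
theorem vexS {m : ℕ} {b : ℝ} (hb : 1 ≤ b) : VexS m b := by
  intro hn
  obtain ⟨R, hR, c, hc, h⟩ := vex m hb hn
  refine ⟨R, hR, c, hc, fun η hη => ?_⟩
  obtain ⟨K, hK⟩ := h η hη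
  refine ⟨K, fun τ hτ J₀ => ?_⟩
  obtain ⟨J, hJ, F, h1, h2, -, -, h3⟩ := hK τ hτ J₀
  exact ⟨J, hJ, F, h1, h2, h3⟩

/-- **The final assembly.** -/
theorem lkg_of_fam {b : ℝ} (hb : 1 ≤ b) (hC : CLSDcr b) (hF : FAMStmt b) : LKG 2 b := by
  refine lkg_of (vexS hb) (fun R hR c₀ hc₀ => ?_)
  obtain ⟨η, hη, h1⟩ := hF (R / 8) (by positivity) (R / 8) (by positivity)
  refine ⟨η, hη, fun K hne => ?_⟩
  obtain ⟨M, hM, h2⟩ := h1 K
  have hM' : (1 : ℝ) ≤ M := by exact_mod_cast hM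
  obtain ⟨g, hg⟩ : ∃ g : ℝ, g = R / (8 * M) := ⟨_, rfl⟩
  have hg0 : 0 < g := by rw [hg]; positivity
  have hgM : 2 * (M : ℝ) * g = R / 4 := by
    rw [hg]
    field_simp
    norm_num
  obtain ⟨c, hc, h3⟩ := hC R c₀ η K hR hc₀ hη hne M (R / 8) g (by positivity) hg0 (by linarith)
  obtain ⟨n, hn, h, hh, J₀, h4⟩ := h2 g hg0 c hc
  obtain ⟨J, hJ, F, B, N, hD, hN, hU⟩ := h3 n h hn hh (J₀ + 1)
  obtain ⟨L, hL'⟩ := h4 J (by omega) F B N hD _ hN
  have hJ1 : (0 : ℝ) < J := by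
    have : 1 ≤ J := by omega
    exact_mod_cast this
  have h6 := hU L
  nlinarith [mul_pos hR hJ1]

end Pool.PC
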