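import Pool.Agent.H37.PC.Asm
import Pool.Agent.H85.PC.Out
import Pool.Agent.H70.PC.Clo

/-!
# Plan C: from the output of the class side to the description of one family

`dcr_of_out : CLSOut → CLSDcr b`.
-/

set_option autoImplicit false

namespace Pool.PC

open Finset Real
open Pool.Agent.H49.Ent Pool.Agent.H32.Dense Pool.STK Pool.KA Pool.KSAT Pool.K2S Pool.LK

variable {m J : ℕ}

/-- A positive lower bound of the positive numbers in a finite set. -/
theorem fin_pos37 (s : Finset ℝ) : ∃ e > 0, ∀ x ∈ s, 0 < x → e ≤ x := by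
  induction s using Finset.induction_on with
  | empty => exact ⟨1, one_pos, fun x hx => absurd hx (Finset.notMem_empty x)⟩
  | insert a s _ ih =>
    obtain ⟨e, he, h⟩ := ih
    by_cases ha : 0 < a
    · refine ⟨min a e, lt_min ha he, fun x hx hx0 => ?_⟩
      rcases Finset.mem_insert.1 hx with rfl | h1
      · exact min_le_left _ _
      · exact (min_le_right _ _).trans (h x h1 hx0)
    · refine ⟨e, he, fun x hx hx0 => ?_⟩
      rcases Finset.mem_insert.1 hx with rfl | h1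
      · exact absurd hx0 ha
      · exact h x h1 hx0

theorem floor_anti37 {a a' : ℕ} (h : a ≤ a') {x y : ℝ}
    (e : ⌊(2 : ℝ) ^ a' * x⌋ = ⌊(2 : ℝ) ^ a' * y⌋) : ⌊(2 : ℝ) ^ a * x⌋ = ⌊(2 : ℝ) ^ a * y⌋ := by
  have key : ∀ z : ℝ, ⌊(2 : ℝ) ^ a * z⌋ = ⌊(2 : ℝ) ^ a' * z⌋ / ((2 ^ (a' - a) : ℕ) : ℤ) := by
    intro z
    rw [← Int.floor_div_natCast]
    congr 1
    have hp : (0 : ℝ) < 2 ^ (a' - a) := by positivity
    push_cast
    rw [eq_div_iff hp.ne', mul_right_comm, ← pow_add, Nat.add_sub_cancel' h]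
  rw [key x, key y, e]

/-- The entropy of the digits of an interval of precisions, from entropies at other precisions. -/
theorem ch_digits {Ω P : Type} [Fintype Ω] {p : Ω → ℝ} (hp : ∀ ω, 0 ≤ p ω) (d : Ω → ℝ)
    (W : Ω → P) {a a' b b' : ℕ} (ha : a ≤ a') (hb : b' ≤ b) :
    CH p (fun ω => ⌊(2 : ℝ) ^ b' * d ω⌋) W - CH p (fun ω => ⌊(2 : ℝ) ^ a' * d ω⌋) W ≤
      CH p (fun ω => ⌊(2 : ℝ) ^ b * d ω⌋) (fun ω => (W ω, ⌊(2 : ℝ) ^ a * d ω⌋)) := by
  have h1 : CH p (fun ω => ⌊(2 : ℝ) ^ b' * d ω⌋) (fun ω => (W ω, ⌊(2 : ℝ) ^ a * d ω⌋)) ≤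
      CH p (fun ω => ⌊(2 : ℝ) ^ b * d ω⌋) (fun ω => (W ω, ⌊(2 : ℝ) ^ a * d ω⌋)) :=
    CH_mono_left hp fun ω ω' _ _ e => floor_anti37 hb (Prod.ext_iff.mp e).1
  have h2 : CH p (fun ω => ⌊(2 : ℝ) ^ a * d ω⌋) W ≤ CH p (fun ω => ⌊(2 : ℝ) ^ a' * d ω⌋) W :=
    CH_mono_left hp fun ω ω' _ _ e => floor_anti37 ha (Prod.ext_iff.mp e).1
  have h3 := CH_le_add hp (fun ω => ⌊(2 : ℝ) ^ b' * d ω⌋) (fun ω => ⌊(2 : ℝ) ^ a * d ω⌋) W
  have h4 : CH p (fun ω => ⌊(2 : ℝ) ^ b' * d ω⌋) (fun ω => (⌊(2 : ℝ) ^ a * d ω⌋, W ω)) ≤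
      CH p (fun ω => ⌊(2 : ℝ) ^ b' * d ω⌋) (fun ω => (W ω, ⌊(2 : ℝ) ^ a * d ω⌋)) :=
    CH_mono_cond hp fun ω ω' _ _ e =>
      Prod.ext (Prod.ext_iff.mp e).2 (Prod.ext_iff.mp e).1
  linarith only [h1, h2, h3, h4]

theorem two_rpow_le37 {x : ℝ} {r : ℕ} (h : (r : ℝ) ≤ x) : (2 : ℝ) ^ (-x) ≤ 1 / 2 ^ r := by
  rw [Real.rpow_neg (by norm_num), ← one_div]
  refine one_div_le_one_div_of_le (by positivity) ?_
  rw [← Real.rpow_natCast]
  exact Real.rpow_le_rpow_of_exponent_le (by norm_num) h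

theorem le_two_rpow37 {x : ℝ} {r : ℕ} (h : x + 1 ≤ r) : (2 : ℝ) / 2 ^ r ≤ (2 : ℝ) ^ (-x) := by
  have h1 : (2 : ℝ) ^ (x + 1) ≤ 2 ^ r := by
    rw [← Real.rpow_natCast]
    exact Real.rpow_le_rpow_of_exponent_le (by norm_num) h
  rw [Real.rpow_add (by norm_num), Real.rpow_one] at h1
  have h2 : (0 : ℝ) < 2 ^ x := Real.rpow_pos_of_pos (by norm_num) x
  rw [Real.rpow_neg (by norm_num), div_le_iff₀ (by positivity), inv_mul_eq_div,
    le_div_iff₀ h2]
  linarith only [h1]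

/-- **(cl)** -/
theorem lvl_cl37 {F : Fam m J} {a : F.Ω → ℝ} {w : ℕ} {ρ h h' : ℝ} (hh : h' ≤ h)
    (ha : ∀ ω, On F (fun _ => True) ω → |a ω| ≤ 1)
    (hC : Clz F (fun _ => True) a w ((2 : ℝ) ^ (-((ρ - h') * J)))) :
    Clo F (fun _ => True) a w ⌊(ρ - h) * J⌋₊ := by
  intro ω ω' h1 h2 e
  rcases lt_or_ge ((ρ - h) * J) 0 with hn | hn
  · rw [Nat.floor_of_nonpos hn.le, pow_zero, div_one]
    have := abs_sub (a ω) (a ω')
    have k1 := ha ω h1
    have k2 := ha ω' h2
    linarith only [this, k1, k2]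
  · refine (hC ω ω' h1 h2 e).trans ?_
    have h3 : (⌊(ρ - h) * J⌋₊ : ℝ) ≤ (ρ - h') * J := by
      refine (Nat.floor_le hn).trans ?_
      exact mul_le_mul_of_nonneg_right (by linarith only [hh]) (Nat.cast_nonneg J)
    refine (two_rpow_le37 h3).trans ?_
    gcongr
    norm_num

/-- **(th)** -/
theorem lvl_th37 {F : Fam m J} {a : F.Ω → ℝ} {w : ℕ} {ρ h h' ϖ : ℝ} (h0 : 0 < h)
    (hh : 1 ≤ (h - h') * J) (hϖ : ϖ ≤ h * h)
    (hC : ∀ E, Ev F (fun _ => True) ϖ E → ¬ Clz F E a w ((2 : ℝ) ^ (-((ρ + h') * J))))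
    {E : F.Ω → Prop} (hE : h ≤ Pe F.p E) :
    Pe (dbl (Pool.Agent.H49.Ent.cond F.p E True) (slam F w))
      (fun v => |a v.1 - a v.2| ≤ 1 / 2 ^ ⌈(ρ + h) * J⌉₊) ≤ h := by
  have hPE : 0 < Pe F.p E := h0.trans_le hE
  have hcl : IsLaw (Pool.Agent.H49.Ent.cond F.p E True) :=
    ⟨cond_nonneg F.isLaw.nonneg E True, sum_cond F.p E hPE.ne'⟩
  refine pairs_of_not_clo F E hcl a w _ hPE fun E' _ hP hClo => ?_
  have h1 : Ev F (fun _ => True) ϖ E' := by
    refine ⟨fun _ _ => trivial, ?_⟩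
    rw [Pe_univ F.isLaw, mul_one]
    have : h * h ≤ h * Pe F.p E := mul_le_mul_of_nonneg_left hE h0.le
    linarith only [hϖ, hP, this]
  refine hC E' h1 fun ω ω' k1 k2 e => (hClo ω ω' k1 k2 e).trans (le_two_rpow37 ?_)
  have h2 := Nat.le_ceil ((ρ + h) * (J : ℝ))
  have e1 : (ρ + h) * (J : ℝ) = (ρ + h') * J + (h - h') * J := by ring
  rw [e1] at h2
  exact le_trans (by linarith only [hh]) (e1 ▸ h2)

theorem nearLine_anti37 {F : Fam 2 J} {B : Bx F} {E : F.Ω → Prop} {α : Type} {P : F.Ω → α}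
    {r r' : ℕ} (h : r' ≤ r) (hN : NearLine F B E P r) : NearLine F B E P r' := by
  obtain ⟨lam, mu, nu, h1, h2⟩ := hN
  refine ⟨lam, mu, nu, h1, fun ω hω => ?_⟩
  obtain ⟨k1, k2, k3, k4⟩ := h2 ω hω
  refine ⟨k1, k2, k3, k4.trans ?_⟩
  exact one_div_le_one_div_of_le (by positivity) (pow_le_pow_right₀ (by norm_num) h)

/-- The numbers of one level, from the class numbers. -/
noncomputable def toNm {M : ℕ} {δ g κ : ℝ} (S : Num M δ g κ) (k : ℕ) : Nm :=
  ⟨S.q k, S.n k, S.rot k, fun y => S.act k (S.q k + y) / Real.log 2⟩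

theorem toNm_ok {M : ℕ} {δ g κ : ℝ} (S : Num M δ g κ) {k : ℕ} (hk : k < M) :
    (toNm S k).Ok δ := by
  have hl : (0 : ℝ) < Real.log 2 := Real.log_pos (by norm_num)
  refine ⟨S.q0 k hk, S.qn k hk, S.n1 k hk, S.rot0 k hk, S.rot1 k hk, S.rotm k hk, ?_, ?_, ?_, ?_⟩
  · change S.act k (S.q k + 0) / Real.log 2 = 0
    rw [add_zero, S.act0 k hk _ le_rfl, zero_div]
  · intro y y' h
    exact div_le_div_of_nonneg_right (S.actm k hk (by linarith only [h])) hl.le
  · intro y y' h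
    change S.act k (S.q k + y') / Real.log 2 - S.act k (S.q k + y) / Real.log 2 ≤ y' - y
    rw [← sub_div, div_le_iff₀ hl]
    have := S.actl k hk (S.q k + y) (S.q k + y') (by linarith only [h])
    have e : S.q k + y' - (S.q k + y) = y' - y := by ring
    rwa [e] at this
  · intro y h0 h1
    change δ * y ≤ S.act k (S.q k + y) / Real.log 2
    rw [le_div_iff₀ hl]
    have h2 : y ≤ 1 - S.q k := h1
    have := S.actd k hk (S.q k + y) (by linarith only [h0]) (by linarith only [h2])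
    have e : S.q k + y - S.q k = y := by ring
    rwa [e] at this

/-- **(ac)** One interval of precisions. -/
theorem lvl_ac37 {F : Fam 2 J} {B : ℕ → Bx F} {k : ℕ} {act : ℝ → ℝ} {q yi yj x y h h₁ h' : ℝ}
    {E : F.Ω → Prop} {mi mj : ℕ}
    (hl : ∀ u v, u ≤ v → act v - act u ≤ (v - u) * Real.log 2)
    (hact : Monotone act)
    (hh₁ : h₁ = h / 16) (hh' : h' ≤ h / 32) (h0 : 0 < h) (hJ : 1 ≤ h / 32 * J)
    (hbq : |((B k).q : ℝ) - q * J| ≤ h' * J) (hmi : (mi : ℝ) ≤ yi * J) (hmj : yj * J ≤ mj + 1)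
    (h0q : 0 ≤ q) (h0i : 0 ≤ yi)
    (hx : x < q + yj - h₁) (hx' : q + yj - 2 * h₁ < x) (hy : q + yi + h₁ < y)
    (hy' : y < q + yi + 2 * h₁) (htop : (B k).q + mj ≤ J)
    (hA : ∀ z, (z = x ∨ z = y) → 0 ≤ z → z ≤ 1 →
      |CH (Pool.Agent.H49.Ent.cond F.p E True)
        (fun ω => ⌊(2 : ℝ) ^ ⌊z * J⌋₊ * F.d ω (B k).i0⌋) (ptk B k) - act z * J| ≤ h' * J) :
    ((act (q + yj) / Real.log 2 - act (q + yi) / Real.log 2) - h) * J * Real.log 2 ≤
      CH (Pool.Agent.H49.Ent.cond F.p E True)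
        (fun ω => ⌊(2 : ℝ) ^ ((B k).q + mj) * F.d ω (B k).i0⌋)
        (fun ω => (ptk B k ω, ⌊(2 : ℝ) ^ ((B k).q + mi) * F.d ω (B k).i0⌋)) := by
  have hlog : (1 / 2 : ℝ) < Real.log 2 := by
    have := Real.log_two_gt_d9
    linarith only [this]
  have hlp : (0 : ℝ) < Real.log 2 := by linarith only [hlog]
  have hlog1 : Real.log 2 < 1 := by
    have := Real.log_two_lt_d9
    linarith only [hlog, this]
  have hc : ∀ ω, 0 ≤ Pool.Agent.H49.Ent.cond F.p E True ω := fun ω =>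
    cond_nonneg F.isLaw.nonneg E True ω
  have hJ0 : (0 : ℝ) ≤ J := Nat.cast_nonneg J
  have hCH := CH_nonneg hc (fun ω => ⌊(2 : ℝ) ^ ((B k).q + mj) * F.d ω (B k).i0⌋)
        (fun ω => (ptk B k ω, ⌊(2 : ℝ) ^ ((B k).q + mi) * F.d ω (B k).i0⌋))
  obtain ⟨hb1, hb2⟩ := abs_le.1 hbq
  have hJp : (0 : ℝ) < J := by
    by_contra hcon
    have : (J : ℝ) = 0 := le_antisymm (not_lt.1 hcon) hJ0
    rw [this, mul_zero] at hJ
    linarith only [hJ]
  have hh'J : h' * J ≤ h / 32 * J := mul_le_mul_of_nonneg_right hh' hJ0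
  have e0 : ((act (q + yj) / Real.log 2 - act (q + yi) / Real.log 2) - h) * J * Real.log 2 =
      (act (q + yj) - act (q + yi) - h * Real.log 2) * J := by
    field_simp
  rw [e0]
  -- the top of the interval
  have htop' : (q + yj) * J ≤ J + h / 32 * J + 1 := by
    have : (((B k).q + mj : ℕ) : ℝ) ≤ J := by exact_mod_cast htop
    push_cast at this
    linarith only [hmj, hb1, hh'J, this, add_mul q yj (J : ℝ)]
  have htop2 : q + yj ≤ 1 + h / 16 := by
    have : (q + yj) * J ≤ (1 + h / 16) * J := by linarith only [hJ, htop']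
    exact le_of_mul_le_mul_right this hJp
  have hsmall : q + yj ≤ q + yi + 4 * h₁ →
      (act (q + yj) - act (q + yi) - h * Real.log 2) * J ≤ 0 := by
    intro hs
    have h1 : act (q + yj) - act (q + yi) ≤ h * Real.log 2 := by
      rcases le_total yi yj with h | h
      · have h2 := hl (q + yi) (q + yj) (by linarith only [h])
        have h3 : (q + yj - (q + yi)) * Real.log 2 ≤ 4 * h₁ * Real.log 2 :=
          mul_le_mul_of_nonneg_right (by linarith only [hs]) hlp.le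
        rw [hh₁] at h3
        nlinarith only [hh₁, hx, hx', h2, h3, h0, hlog]
      · have h2 := hact (show q + yj ≤ q + yi by linarith only [h])
        have h3 : 0 ≤ h₁ * 16 * Real.log 2 := by
          rw [hh₁]
          positivity
        rw [hh₁] at h3
        nlinarith only [h2, h3]
    have : act (q + yj) - act (q + yi) - h * Real.log 2 ≤ 0 := by linarith only [h1]
    exact mul_nonpos_of_nonpos_of_nonneg this hJ0
  rcases lt_or_ge x 0 with hx0 | hx0
  · refine le_trans (hsmall ?_) hCH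
    rw [hh₁] at *
    linarith only [h0, h0q, h0i, hx', hx0]
  rcases lt_or_ge 1 y with hy1 | hy1
  · refine le_trans (hsmall ?_) hCH
    rw [hh₁] at *
    linarith only [hx, hx', hy', htop2, hy1]
  have hy0 : 0 ≤ y := by
    rw [hh₁] at *
    linarith only [h0q, h0i, hx, hx', hy]
  have hx1 : x ≤ 1 := by
    rw [hh₁] at *
    linarith only [hx, htop2]
  have h3 := (abs_le.1 (hA x (Or.inl rfl) hx0 hx1)).1
  have h4 := (abs_le.1 (hA y (Or.inr rfl) hy0 hy1)).2
  have ha : (B k).q + mi ≤ ⌊y * J⌋₊ := by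
    refine Nat.le_floor ?_
    push_cast
    have : (q + yi + h₁) * J ≤ y * J := mul_le_mul_of_nonneg_right hy.le hJ0
    rw [hh₁] at this
    have e : (q + yi + h / 16) * J = q * J + yi * J + (h / 32 * J + h / 32 * J) := by ring
    rw [e] at this
    linarith only [hJ, hmi, hlog, hlog1, hb2, hh'J, this]
  have hb : ⌊x * J⌋₊ ≤ (B k).q + mj := by
    refine Nat.floor_le_of_le ?_
    push_cast
    have : x * J ≤ (q + yj - h₁) * J := mul_le_mul_of_nonneg_right hx.le hJ0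
    rw [hh₁] at this
    have e : (q + yj - h / 16) * J = q * J + yj * J - (h / 32 * J + h / 32 * J) := by ring
    rw [e] at this
    linarith only [hJ, hmj, hb1, hh'J, this]
  refine le_trans ?_ (ch_digits hc (fun ω => F.d ω (B k).i0) (ptk B k) ha hb)
  have k1 : act (q + yj) - 2 * h₁ * Real.log 2 ≤ act x := by
    have h2 := hl x (q + yj) (by rw [hh₁] at *; linarith only [hx, hx'])
    have h3 : (q + yj - x) * Real.log 2 ≤ 2 * h₁ * Real.log 2 :=
      mul_le_mul_of_nonneg_right (by linarith only [hx']) hlp.le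
    linarith only [h2, h3]
  have k2 : act y ≤ act (q + yi) + 2 * h₁ * Real.log 2 := by
    have h2 := hl (q + yi) y (by rw [hh₁] at *; linarith only [hx, hx', hy])
    have h3 : (y - (q + yi)) * Real.log 2 ≤ 2 * h₁ * Real.log 2 :=
      mul_le_mul_of_nonneg_right (by linarith only [hy']) hlp.le
    linarith only [h2, h3]
  have k3 : (act (q + yj) - act (q + yi) - h * Real.log 2) * J ≤ act x * J - h' * J -
      (act y * J + h' * J) := by
    have k4 : act (q + yj) - act (q + yi) - h * Real.log 2 ≤ act x - h' - (act y + h') := by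
      rw [hh₁] at k1 k2
      nlinarith only [hh₁, hh', hx, hx', k1, k2, h0, hlog]
    have k5 := mul_le_mul_of_nonneg_right k4 hJ0
    linarith only [k5, k5]
  linarith only [h3, h4, k3]

/-- **The bridge**: the output of the class side gives the description of one family. -/
theorem dcr_of_out {b : ℝ} (hb : 1 ≤ b) (hC : CLSOut) : CLSDcr b := by
  intro R c₀ η K hR hc₀ hη hne M δ g hδ hg hMg
  obtain ⟨S, hS⟩ := hC b R c₀ η K hb hR hc₀ hη hne M δ g hδ hg hMg
  refine ⟨toNm S, fun k hk => toNm_ok S hk, fun n h hn hh J₀ => ?_⟩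
  have hnp : (0 : ℝ) < n := by exact_mod_cast hn
  -- the gaps of the class numbers
  obtain ⟨e₁, he₁, hgap₁⟩ := fin_pos37 ((Finset.range M ×ˢ Finset.range (n + 1)).image
    fun x => S.n x.1 - S.q x.1 - S.rot x.1 ((x.2 : ℝ) / n))
  obtain ⟨e₂, he₂, hgap₂⟩ := fin_pos37 ((Finset.range M).image fun k => 1 - S.n k)
  obtain ⟨h', hh'⟩ : ∃ h' : ℝ, h' = min (min (h / 32) (R / 4)) (min (e₁ / 2) (e₂ / 2)) :=
    ⟨_, rfl⟩
  have hh'0 : 0 < h' := by rw [hh']; positivity
  have hh'1 : h' ≤ h / 32 := hh' ▸ (min_le_left _ _).trans (min_le_left _ _)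
  have hh'2 : h' ≤ R / 4 := hh' ▸ (min_le_left _ _).trans (min_le_right _ _)
  have hh'3 : h' ≤ e₁ / 2 := hh' ▸ (min_le_right _ _).trans (min_le_left _ _)
  have hh'4 : h' ≤ e₂ / 2 := hh' ▸ (min_le_right _ _).trans (min_le_right _ _)
  -- the rational precisions
  have hx : ∀ k i : ℕ, ∃ x : ℚ, S.q k + (i : ℝ) / n - 2 * (h / 16) < x ∧
      (x : ℝ) < S.q k + (i : ℝ) / n - h / 16 := fun k i => exists_rat_btwn (by linarith only [hh'0, hh'1])
  have hy : ∀ k i : ℕ, ∃ y : ℚ, S.q k + (i : ℝ) / n + h / 16 < y ∧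
      (y : ℝ) < S.q k + (i : ℝ) / n + 2 * (h / 16) := fun k i => exists_rat_btwn (by linarith only [hh'0, hh'1])
  choose x hx1 hx2 using hx
  choose y hy1 hy2 using hy
  obtain ⟨τ, hτ, J₁, hTim⟩ := tim_of_tgd K (η := η) (h := h) hη hh
  obtain ⟨J₂, hJ₂⟩ := exists_nat_ge (1 / (h / 32))
  obtain ⟨J, hJ, F, B, N, hTr, hTG, hU, hL⟩ := hS
    ((Finset.range (n + 1)).image fun i : ℕ => (i : ℚ) / n)
    (((Finset.range M ×ˢ Finset.range (n + 1)).image fun z => x z.1 z.2) ∪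
      ((Finset.range M ×ˢ Finset.range (n + 1)).image fun z => y z.1 z.2))
    h' (min (h * h) (min h 1)) τ hh'0 (by positivity)
    ((min_le_right _ _).trans (min_le_right _ _)) hτ (J₀ + J₁ + J₂)
  have hJr : (J₂ : ℝ) ≤ J := by exact_mod_cast (by omega : J₂ ≤ J)
  have hJ0 : (0 : ℝ) ≤ J := Nat.cast_nonneg J
  have hJh : 1 ≤ h / 32 * J := by
    have := hJ₂.trans hJr
    rw [div_le_iff₀ (by positivity)] at this
    linarith only [this]
  have hcast : ∀ i : ℕ, (((i : ℚ) / n : ℚ) : ℝ) = (i : ℝ) / n := fun i => by push_cast; rfl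
  have hEv : ∀ E : F.Ω → Prop, h ≤ Pe F.p E →
      Ev F (fun _ => True) (min (h * h) (min h 1)) E := by
    intro E hE
    refine ⟨fun _ _ => trivial, ?_⟩
    rw [Pe_univ F.isLaw, mul_one]
    exact ((min_le_right _ _).trans (min_le_left _ _)).trans hE
  refine ⟨J, by omega, F, B, N, ⟨hTr, hTim J (by omega) F hTG, hL.chn, fun k hk => ?_⟩,
    fun k hk => ?_, hU⟩
  · have hS1 : (0 : ℝ) ≤ S.q k := S.q0 k hk
    refine ⟨?_, ?_, ?_, ?_, ?_, ?_⟩
    · refine (hL.bq k hk).trans (mul_le_mul_of_nonneg_right (by linarith only [hh'0, hh'1]) hJ0)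
    · refine (hL.bn k hk).trans (mul_le_mul_of_nonneg_right (by linarith only [hh'0, hh'1]) hJ0)
    · intro i hi
      have hi0 : (0 : ℝ) ≤ (i : ℝ) / n := by positivity
      have hi1 : (i : ℝ) / n ≤ 1 := by
        rw [div_le_one hnp]
        exact_mod_cast hi
      have h1 := hL.clo k hk ((i : ℚ) / n) (Finset.mem_image.2 ⟨i, by
        rw [Finset.mem_range]; omega, rfl⟩) (by rw [hcast]; exact hi0) (by rw [hcast]; exact hi1)
      rw [hcast] at h1
      exact lvl_cl37 (by linarith only [hh'0, hh'1]) (fun ω hω => (hL.chn.ok k hk).sl ω hω) h1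
    · intro i hi hrot E hE
      have hi0 : (0 : ℝ) ≤ (i : ℝ) / n := by positivity
      have hi1 : (i : ℝ) / n ≤ 1 := by
        rw [div_le_one hnp]
        exact_mod_cast hi
      have hrot' : S.rot k ((i : ℝ) / n) < S.n k - S.q k := hrot
      have hg := hgap₁ (S.n k - S.q k - S.rot k ((i : ℝ) / n)) (Finset.mem_image.2
        ⟨(k, i), by
          rw [Finset.mem_product, Finset.mem_range, Finset.mem_range]
          exact ⟨hk, by change i < n + 1; omega⟩, rfl⟩) (by linarith only [hrot'])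
      have h1 := hL.th k hk ((i : ℚ) / n) (Finset.mem_image.2 ⟨i, by
        rw [Finset.mem_range]; omega, rfl⟩) (by rw [hcast]; exact hi0) (by rw [hcast]; exact hi1)
        (by rw [hcast]; linarith only [hh'3, hg])
      rw [hcast] at h1
      refine lvl_th37 hh ?_ (min_le_left _ _) h1 hE
      have : (h / 32 * J) * 1 ≤ (h - h') * J := by
        have : h / 32 * (J : ℝ) ≤ (h - h') * J := mul_le_mul_of_nonneg_right (by linarith only [hh'0, hh'1]) hJ0
        linarith only [this]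
      linarith only [hJh, this]
    · intro i j hij hj htop E hE
      refine lvl_ac37 (act := S.act k) (q := S.q k) (x := x k j) (y := y k i) (h₁ := h / 16)
        (h' := h') (fun u v huv => S.actl k hk u v huv) (S.actm k hk) rfl hh'1 hh hJh
        (hL.bq k hk) ?_ ?_ hS1 (by positivity) (hx2 k j) (hx1 k j) (hy1 k i) (hy2 k i) htop ?_
      · exact Nat.floor_le (by positivity)
      · exact (Nat.lt_floor_add_one _).le
      · intro z hz h0 h1
        have hmi : (k, i) ∈ Finset.range M ×ˢ Finset.range (n + 1) := by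
          rw [Finset.mem_product, Finset.mem_range, Finset.mem_range]
          exact ⟨hk, by change i < n + 1; omega⟩
        have hmj : (k, j) ∈ Finset.range M ×ˢ Finset.range (n + 1) := by
          rw [Finset.mem_product, Finset.mem_range, Finset.mem_range]
          exact ⟨hk, by change j < n + 1; omega⟩
        rcases hz with rfl | rfl
        · exact hL.act k hk (x k j) (Finset.mem_union_left _ (Finset.mem_image.2
            ⟨(k, j), hmj, rfl⟩)) h0 h1 E (hEv E hE)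
        · exact hL.act k hk (y k i) (Finset.mem_union_right _ (Finset.mem_image.2
            ⟨(k, i), hmi, rfl⟩)) h0 h1 E (hEv E hE)
    · intro hcn E hE hN
      have hcn' : S.n k < 1 := hcn
      have hg := hgap₂ (1 - S.n k) (Finset.mem_image.2 ⟨k, Finset.mem_range.2 hk, rfl⟩)
        (by linarith only [hcn'])
      refine hL.exa k hk (by linarith only [hh'4, hg]) E (hEv E hE) (nearLine_anti37 ?_ hN)
      refine Nat.floor_le_of_le (le_trans ?_ (Nat.le_ceil _))
      exact mul_le_mul_of_nonneg_right (by linarith only [hh'0, hh'1]) hJ0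
  · refine (hL.price k hk).trans (mul_le_mul_of_nonneg_right ?_ hJ0)
    linarith only [hMg, hh'2]

end Pool.PC
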