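import Pool.Agent.H54.KVA.Defs2
import Pool.Agent.H32.Dense.Pair

/-!
# Accounting identities for contexts along the time

`l` is the line, `Z` the side information, `c v` a chain of contexts, `T v` the digits of the time
which the context `c v` contains. No geometry enters.
-/

set_option autoImplicit false

namespace Pool.PC

open Finset Real
open Pool.Agent.H49.Ent Pool.Agent.H32.Dense Pool.STK

variable {Ω : Type} [Fintype Ω] {p : Ω → ℝ}

/-- Mutual information as a drop of entropy. -/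
theorem mi_eq {S T U : Type} (hp : ∀ ω, 0 ≤ p ω) (A : Ω → S) (B : Ω → T) (W : Ω → U) :
    Pool.KVA.MI p A B W = CH p B W - CH p B (fun ω => (A ω, W ω)) := by
  unfold Pool.KVA.MI
  have h := CH_chain hp A B W
  have h1 := CH_bayes hp A B W
  linarith

/-- Mutual information as a drop of the entropy of the first variable. -/
theorem mi_eq' {S T U : Type} (hp : ∀ ω, 0 ≤ p ω) (A : Ω → S) (B : Ω → T) (W : Ω → U) :
    Pool.KVA.MI p A B W = CH p A W - CH p A (fun ω => (B ω, W ω)) := by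
  unfold Pool.KVA.MI
  have h := CH_chain hp A B W
  linarith

theorem mi_nonneg {S T U : Type} (hp : ∀ ω, 0 ≤ p ω) (A : Ω → S) (B : Ω → T) (W : Ω → U) :
    0 ≤ Pool.KVA.MI p A B W := by
  rw [mi_eq hp]
  have h : CH p B (fun ω => (A ω, W ω)) ≤ CH p B W :=
    CH_mono_cond hp (fun ω ω' _ _ h => by simp only [Prod.mk.injEq] at h; exact h.2)
  linarith

/-- The data processing inequality. -/
theorem mi_mono {S T T' U : Type} (hp : ∀ ω, 0 ≤ p ω) (A : Ω → S) {B : Ω → T} {B' : Ω → T'}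
    {W : Ω → U} (h : Det p (fun ω => (B ω, W ω)) B') :
    Pool.KVA.MI p A B' W ≤ Pool.KVA.MI p A B W := by
  rw [mi_eq' hp, mi_eq' hp]
  have h1 : CH p A (fun ω => (B ω, W ω)) ≤ CH p A (fun ω => (B' ω, W ω)) :=
    CH_mono_cond hp (fun ω ω' a a' e => by
      have e1 := h ω ω' a a' e
      simp only [Prod.mk.injEq] at e ⊢
      exact ⟨e1, e.2⟩)
  linarith

/-- The chain rule for the second variable. -/
theorem mi_chain {S T T' U : Type} (hp : ∀ ω, 0 ≤ p ω) (A : Ω → S) (B : Ω → T) (B' : Ω → T')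
    (W : Ω → U) : Pool.KVA.MI p A (fun ω => (B ω, B' ω)) W =
      Pool.KVA.MI p A B W + Pool.KVA.MI p A B' (fun ω => (B ω, W ω)) := by
  rw [mi_eq' hp, mi_eq' hp, mi_eq' hp]
  have h1 : CH p A (fun ω => ((B ω, B' ω), W ω)) = CH p A (fun ω => (B' ω, B ω, W ω)) :=
    CH_congr hp (fun ω ω' _ _ e => by simp only [Prod.mk.injEq] at e; exact e.1)
      (fun ω ω' _ _ e => by simp only [Prod.mk.injEq] at e; exact e.1)
      (fun ω ω' _ _ e => by simp only [Prod.mk.injEq] at e ⊢; tauto)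
      (fun ω ω' _ _ e => by simp only [Prod.mk.injEq] at e ⊢; tauto)
  rw [h1]
  ring

/-- Mutual information does not see equivalent variables. -/
theorem mi_congr {S S' T T' U U' : Type} (hp : ∀ ω, 0 ≤ p ω) {A : Ω → S} {A' : Ω → S'}
    {B : Ω → T} {B' : Ω → T'} {W : Ω → U} {W' : Ω → U'}
    (hA : Det p (fun ω => (A ω, W ω)) A') (hA' : Det p (fun ω => (A' ω, W' ω)) A)
    (hB : Det p (fun ω => (B ω, W ω)) B') (hB' : Det p (fun ω => (B' ω, W' ω)) B)
    (hW : Det p W W') (hW' : Det p W' W) :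
    Pool.KVA.MI p A B W = Pool.KVA.MI p A' B' W' := by
  rw [mi_eq hp, mi_eq hp]
  have h1 : CH p B W = CH p B' W' := CH_congr hp hB hB' hW hW'
  have h2 : CH p B (fun ω => (A ω, W ω)) = CH p B' (fun ω => (A' ω, W' ω)) := by
    refine CH_congr hp (fun ω ω' a a' e => ?_) (fun ω ω' a a' e => ?_)
      (fun ω ω' a a' e => ?_) (fun ω ω' a a' e => ?_)
    · simp only [Prod.mk.injEq] at e
      exact hB ω ω' a a' (Prod.ext e.1 e.2.2)
    · simp only [Prod.mk.injEq] at e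
      exact hB' ω ω' a a' (Prod.ext e.1 e.2.2)
    · have e1 := hA ω ω' a a' e
      simp only [Prod.mk.injEq] at e ⊢
      exact ⟨e1, hW ω ω' a a' e.2⟩
    · have e1 := hA' ω ω' a a' e
      simp only [Prod.mk.injEq] at e ⊢
      exact ⟨e1, hW' ω ω' a a' e.2⟩
  rw [h1, h2]

/-- (I1). A context is a function of the point and of a cell of the direction. -/
theorem i1 {S T D C U : Type} (hp : ∀ ω, 0 ≤ p ω) (l : Ω → S) (P : Ω → T) (D : Ω → D)
    (c : Ω → C) (Z : Ω → U) (h : Det p (fun ω => (P ω, D ω, Z ω)) c) :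
    Pool.KVA.MI p l c Z ≤ Pool.KVA.MI p l P Z + CH p D (fun ω => (P ω, Z ω)) := by
  have h1 : Pool.KVA.MI p l c Z ≤ Pool.KVA.MI p l (fun ω => (P ω, D ω)) Z :=
    mi_mono hp l (fun ω ω' a a' e => h ω ω' a a' (by
      simp only [Prod.mk.injEq] at e ⊢; exact ⟨e.1.1, e.1.2, e.2⟩))
  rw [mi_chain hp] at h1
  have h2 : Pool.KVA.MI p l D (fun ω => (P ω, Z ω)) ≤ CH p D (fun ω => (P ω, Z ω)) := by
    rw [mi_eq hp]
    have := CH_nonneg hp D (fun ω => (l ω, P ω, Z ω))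
    linarith
  linarith

/-- (I2). The gain of information of a step: the part of the time and the entropy of the rows. -/
theorem i2 {S T C U : Type} (hp : ∀ ω, 0 ≤ p ω) (l : Ω → S) (T' : Ω → T) (c' : Ω → C)
    (W : Ω → U) (h1 : Det p (fun ω => (l ω, T' ω, W ω)) c')
    (h2 : Det p (fun ω => (c' ω, W ω)) T') :
    Pool.KVA.MI p l c' W =
      Pool.KVA.MI p l T' W + CH p c' (fun ω => (T' ω, W ω)) := by
  have h3 : Pool.KVA.MI p l c' W = Pool.KVA.MI p l (fun ω => (T' ω, c' ω)) W := by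
    refine mi_congr hp (fun ω ω' _ _ e => ?_) (fun ω ω' _ _ e => ?_) (fun ω ω' a a' e => ?_)
      (fun ω ω' _ _ e => ?_) (fun ω ω' _ _ e => e) (fun ω ω' _ _ e => e)
    · simp only [Prod.mk.injEq] at e; exact e.1
    · simp only [Prod.mk.injEq] at e; exact e.1
    · have e1 := h2 ω ω' a a' e
      simp only [Prod.mk.injEq] at e ⊢
      exact ⟨e1, e.1⟩
    · simp only [Prod.mk.injEq] at e; exact e.1.2
  rw [h3, mi_chain hp, mi_eq hp l c' (fun ω => (T' ω, W ω)), CH_eq_zero hp h1]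
  ring

/-- The information of a chain of contexts. -/
theorem mi_sum {S U : Type} {C : ℕ → Type} (hp : ∀ ω, 0 ≤ p ω) (l : Ω → S)
    (c : (v : ℕ) → Ω → C v) (Z : Ω → U) (hc : ∀ v, Det p (fun ω => (c (v + 1) ω, Z ω)) (c v))
    (n : ℕ) :
    Pool.KVA.MI p l (c n) (fun ω => (c 0 ω, Z ω)) =
      ∑ v ∈ range n, Pool.KVA.MI p l (c (v + 1)) (fun ω => (c v ω, Z ω)) := by
  have h0 : ∀ v, Det p (fun ω => (c v ω, Z ω)) (c 0) := by
    intro v
    induction v with
    | zero => intro ω ω' _ _ e; simp only [Prod.mk.injEq] at e; exact e.1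
    | succ v ih =>
      intro ω ω' a a' e
      refine ih ω ω' a a' ?_
      have e1 := hc v ω ω' a a' e
      simp only [Prod.mk.injEq] at e ⊢
      exact ⟨e1, e.2⟩
  induction n with
  | zero =>
    rw [range_zero, sum_empty, mi_eq hp]
    have h1 : CH p (c 0) (fun ω => (c 0 ω, Z ω)) = 0 := CH_eq_zero hp (h0 0)
    have h2 : CH p (c 0) (fun ω => (l ω, c 0 ω, Z ω)) = 0 := CH_eq_zero hp
      (fun ω ω' _ _ e => by simp only [Prod.mk.injEq] at e; exact e.2.1)
    rw [h1, h2]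
    ring
  | succ n ih =>
    rw [sum_range_succ, ← ih]
    have h1 : Pool.KVA.MI p l (c (n + 1)) (fun ω => (c 0 ω, Z ω)) =
        Pool.KVA.MI p l (fun ω => (c n ω, c (n + 1) ω)) (fun ω => (c 0 ω, Z ω)) := by
      refine mi_congr hp (fun ω ω' _ _ e => ?_) (fun ω ω' _ _ e => ?_)
        (fun ω ω' a a' e => ?_) (fun ω ω' _ _ e => ?_) (fun ω ω' _ _ e => e)
        (fun ω ω' _ _ e => e)
      · simp only [Prod.mk.injEq] at e; exact e.1
      · simp only [Prod.mk.injEq] at e; exact e.1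
      · simp only [Prod.mk.injEq] at e ⊢
        exact ⟨hc n ω ω' a a' (Prod.ext e.1 e.2.2), e.1⟩
      · simp only [Prod.mk.injEq] at e; exact e.1.2
    rw [h1, mi_chain hp]
    congr 1
    refine mi_congr hp (fun ω ω' _ _ e => ?_) (fun ω ω' _ _ e => ?_)
      (fun ω ω' a a' e => ?_) (fun ω ω' _ _ e => ?_) (fun ω ω' _ _ e => ?_)
      (fun ω ω' a a' e => ?_)
    · simp only [Prod.mk.injEq] at e; exact e.1
    · simp only [Prod.mk.injEq] at e; exact e.1
    · simp only [Prod.mk.injEq] at e; exact e.1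
    · simp only [Prod.mk.injEq] at e; exact e.1
    · simp only [Prod.mk.injEq] at e ⊢; exact ⟨e.1, e.2.2⟩
    · have e1 := h0 n ω ω' a a' e
      simp only [Prod.mk.injEq] at e ⊢; exact ⟨e.1, e1, e.2⟩

/-- (I3). The payment: what a function of the line knows after the context `c 0` is at least
the sum of the entropies of the rows which it decides. -/
theorem i3 {S U R : Type} {C T : ℕ → Type} (hp : ∀ ω, 0 ≤ p ω) (l : Ω → S) (L : Ω → R)
    (Z : Ω → U) (c : (v : ℕ) → Ω → C v) (t : (v : ℕ) → Ω → T v)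
    (hc : ∀ v, Det p (fun ω => (c (v + 1) ω, Z ω)) (c v))
    (ht : ∀ v, Det p (fun ω => (c v ω, Z ω)) (t v))
    (htt : ∀ v, Det p (fun ω => (t (v + 1) ω, Z ω)) (t v))
    (hl : ∀ v, Det p (fun ω => (l ω, t v ω, Z ω)) (c v))
    (hL : Det p (fun ω => (l ω, Z ω)) L)
    (hB : ∀ v, Det p (fun ω => (c 0 ω, L ω, t v ω, Z ω)) (c v)) (n : ℕ) :
    ∑ v ∈ range n, CH p (c (v + 1)) (fun ω => (t (v + 1) ω, c v ω, Z ω)) ≤
      CH p L (fun ω => (c 0 ω, Z ω)) := by
  -- the information of the chain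
  have h1 := mi_sum hp l c Z hc n
  have h2 : ∀ v, Pool.KVA.MI p l (c (v + 1)) (fun ω => (c v ω, Z ω)) =
      Pool.KVA.MI p l (t (v + 1)) (fun ω => (c v ω, Z ω)) +
        CH p (c (v + 1)) (fun ω => (t (v + 1) ω, c v ω, Z ω)) := by
    intro v
    refine i2 hp l (t (v + 1)) (c (v + 1)) (fun ω => (c v ω, Z ω)) ?_ ?_
    · intro ω ω' a a' e
      simp only [Prod.mk.injEq] at e
      exact hl (v + 1) ω ω' a a' (by simp only [Prod.mk.injEq]; exact ⟨e.1, e.2.1, e.2.2.2⟩)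
    · intro ω ω' a a' e
      simp only [Prod.mk.injEq] at e
      exact ht (v + 1) ω ω' a a' (by simp only [Prod.mk.injEq]; exact ⟨e.1, e.2.2⟩)
  -- the information after the label
  have h3 : Pool.KVA.MI p l (c n) (fun ω => (c 0 ω, Z ω)) ≤ CH p L (fun ω => (c 0 ω, Z ω)) +
      Pool.KVA.MI p l (c n) (fun ω => (L ω, c 0 ω, Z ω)) := by
    rw [mi_eq hp, mi_eq hp]
    have e1 : CH p (c n) (fun ω => (l ω, L ω, c 0 ω, Z ω)) =
        CH p (c n) (fun ω => (l ω, c 0 ω, Z ω)) := by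
      refine CH_congr hp (fun ω ω' _ _ e => ?_) (fun ω ω' _ _ e => ?_)
        (fun ω ω' _ _ e => ?_) (fun ω ω' a a' e => ?_)
      · simp only [Prod.mk.injEq] at e; exact e.1
      · simp only [Prod.mk.injEq] at e; exact e.1
      · simp only [Prod.mk.injEq] at e ⊢; exact ⟨e.1, e.2.2⟩
      · have := hL ω ω' a a' (by simp only [Prod.mk.injEq] at e ⊢; exact ⟨e.1, e.2.2⟩)
        simp only [Prod.mk.injEq] at e ⊢; exact ⟨e.1, this, e.2⟩
    have e2 := CH_bayes hp (c n) L (fun ω => (c 0 ω, Z ω))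
    have e3 := CH_nonneg hp L (fun ω => (c n ω, c 0 ω, Z ω))
    rw [e1]
    linarith
  have h4 : Pool.KVA.MI p l (c n) (fun ω => (L ω, c 0 ω, Z ω)) ≤
      Pool.KVA.MI p l (t n) (fun ω => (L ω, c 0 ω, Z ω)) :=
    mi_mono hp l (fun ω ω' a a' e => hB n ω ω' a a' (by
      simp only [Prod.mk.injEq] at e ⊢
      exact ⟨e.2.2.1, e.2.1, e.1, e.2.2.2⟩))
  -- the times, one by one
  have h5 : Pool.KVA.MI p l (t n) (fun ω => (t 0 ω, L ω, c 0 ω, Z ω)) =
      ∑ v ∈ range n, Pool.KVA.MI p l (t (v + 1)) (fun ω => (t v ω, L ω, c 0 ω, Z ω)) := by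
    exact mi_sum hp l t (fun ω => (L ω, c 0 ω, Z ω)) (fun v ω ω' a a' e => by
      refine htt v ω ω' a a' ?_
      simp only [Prod.mk.injEq] at e ⊢
      exact ⟨e.1, e.2.2.2⟩) n
  have h6 : Pool.KVA.MI p l (t n) (fun ω => (L ω, c 0 ω, Z ω)) =
      Pool.KVA.MI p l (t n) (fun ω => (t 0 ω, L ω, c 0 ω, Z ω)) := by
    refine mi_congr hp (fun ω ω' _ _ e => ?_) (fun ω ω' _ _ e => ?_) (fun ω ω' _ _ e => ?_)
      (fun ω ω' _ _ e => ?_) (fun ω ω' a a' e => ?_) (fun ω ω' _ _ e => ?_)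
    · simp only [Prod.mk.injEq] at e; exact e.1
    · simp only [Prod.mk.injEq] at e; exact e.1
    · simp only [Prod.mk.injEq] at e; exact e.1
    · simp only [Prod.mk.injEq] at e; exact e.1
    · have := ht 0 ω ω' a a' (by simp only [Prod.mk.injEq] at e ⊢; exact e.2)
      simp only [Prod.mk.injEq] at e ⊢
      exact ⟨this, e⟩
    · simp only [Prod.mk.injEq] at e ⊢; exact e.2
  have h7 : ∀ v, Pool.KVA.MI p l (t (v + 1)) (fun ω => (t v ω, L ω, c 0 ω, Z ω)) ≤
      Pool.KVA.MI p l (t (v + 1)) (fun ω => (c v ω, Z ω)) := by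
    intro v
    rw [mi_eq hp, mi_eq hp]
    have e1 : CH p (t (v + 1)) (fun ω => (t v ω, L ω, c 0 ω, Z ω)) ≤
        CH p (t (v + 1)) (fun ω => (c v ω, Z ω)) :=
      CH_mono_cond hp (fun ω ω' a a' e => by
        have := hB v ω ω' a a' (by
          simp only [Prod.mk.injEq] at e ⊢
          exact ⟨e.2.2.1, e.2.1, e.1, e.2.2.2⟩)
        simp only [Prod.mk.injEq] at e ⊢
        exact ⟨this, e.2.2.2⟩)
    have e2 : CH p (t (v + 1)) (fun ω => (l ω, t v ω, L ω, c 0 ω, Z ω)) =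
        CH p (t (v + 1)) (fun ω => (l ω, c v ω, Z ω)) := by
      have hc0 : Det p (fun ω => (c v ω, Z ω)) (c 0) := by
        clear h1 h2 h3 h4 h5 h6 e1
        induction v with
        | zero => intro ω ω' _ _ e; simp only [Prod.mk.injEq] at e; exact e.1
        | succ v ih =>
          intro ω ω' a a' e
          refine ih ω ω' a a' ?_
          have e1 := hc v ω ω' a a' e
          simp only [Prod.mk.injEq] at e ⊢
          exact ⟨e1, e.2⟩
      refine CH_congr hp (fun ω ω' _ _ e => ?_) (fun ω ω' _ _ e => ?_)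
        (fun ω ω' a a' e => ?_) (fun ω ω' a a' e => ?_)
      · simp only [Prod.mk.injEq] at e; exact e.1
      · simp only [Prod.mk.injEq] at e; exact e.1
      · have := hl v ω ω' a a' (by
          simp only [Prod.mk.injEq] at e ⊢
          exact ⟨e.1, e.2.1, e.2.2.2.2⟩)
        simp only [Prod.mk.injEq] at e ⊢
        exact ⟨e.1, this, e.2.2.2.2⟩
      · have f1 := hL ω ω' a a' (by simp only [Prod.mk.injEq] at e ⊢; exact ⟨e.1, e.2.2⟩)
        have f2 := ht v ω ω' a a' (by simp only [Prod.mk.injEq] at e ⊢; exact e.2)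
        have f3 := hc0 ω ω' a a' (by simp only [Prod.mk.injEq] at e ⊢; exact e.2)
        simp only [Prod.mk.injEq] at e ⊢
        exact ⟨e.1, f2, f1, f3, e.2.2⟩
    rw [e2]
    linarith
  have h8 : Pool.KVA.MI p l (c n) (fun ω => (c 0 ω, Z ω)) =
      ∑ v ∈ range n, Pool.KVA.MI p l (t (v + 1)) (fun ω => (c v ω, Z ω)) +
        ∑ v ∈ range n, CH p (c (v + 1)) (fun ω => (t (v + 1) ω, c v ω, Z ω)) := by
    rw [h1, ← sum_add_distrib]
    exact sum_congr rfl (fun v _ => h2 v)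
  have h9 : ∑ v ∈ range n, Pool.KVA.MI p l (t (v + 1)) (fun ω => (t v ω, L ω, c 0 ω, Z ω)) ≤
      ∑ v ∈ range n, Pool.KVA.MI p l (t (v + 1)) (fun ω => (c v ω, Z ω)) :=
    sum_le_sum (fun v _ => h7 v)
  linarith

/-- (I3), in terms of rows `Y v`. -/
theorem i3' {S U R : Type} {C T Y : ℕ → Type} (hp : ∀ ω, 0 ≤ p ω) (l : Ω → S) (L : Ω → R)
    (Z : Ω → U) (c : (v : ℕ) → Ω → C v) (t : (v : ℕ) → Ω → T v) (y : (v : ℕ) → Ω → Y v)
    (hc : ∀ v, Det p (fun ω => (c (v + 1) ω, Z ω)) (c v))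
    (hy : ∀ v, Det p (fun ω => (c (v + 1) ω, Z ω)) (y v))
    (ht : ∀ v, Det p (fun ω => (c v ω, Z ω)) (t v))
    (htt : ∀ v, Det p (fun ω => (t (v + 1) ω, Z ω)) (t v))
    (hl : ∀ v, Det p (fun ω => (l ω, t v ω, Z ω)) (c v))
    (hL : Det p (fun ω => (l ω, Z ω)) L)
    (hB : ∀ v, Det p (fun ω => (c 0 ω, L ω, t v ω, Z ω)) (c v)) (n : ℕ) :
    ∑ v ∈ range n, CH p (y v) (fun ω => (t (v + 1) ω, c v ω, Z ω)) ≤
      CH p L (fun ω => (c 0 ω, Z ω)) := by
  refine le_trans (sum_le_sum (fun v _ => ?_)) (i3 hp l L Z c t hc ht htt hl hL hB n)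
  exact CH_mono_left hp (fun ω ω' a a' e => hy v ω ω' a a' (by
    simp only [Prod.mk.injEq] at e ⊢
    exact ⟨e.1, e.2.2.2⟩))

/-- (TI). A variable of few digits is independent of most of the blocks of a chain of
contexts. -/
theorem ti {A U : Type} {C : ℕ → Type} (hp : ∀ ω, 0 ≤ p ω) (z : Ω → A) (Z : Ω → U)
    (c : (v : ℕ) → Ω → C v) (hc : ∀ v, Det p (fun ω => (c (v + 1) ω, Z ω)) (c v)) (n : ℕ) :
    ∑ v ∈ range n, Pool.KVA.MI p z (c (v + 1)) (fun ω => (c v ω, Z ω)) ≤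
      CH p z (fun ω => (c 0 ω, Z ω)) := by
  rw [← mi_sum hp z c Z hc n, mi_eq' hp]
  have := CH_nonneg hp z (fun ω => (c n ω, c 0 ω, Z ω))
  linarith

/-- (TI) for blocks. -/
theorem ti' {A U : Type} {C B : ℕ → Type} (hp : ∀ ω, 0 ≤ p ω) (z : Ω → A) (Z : Ω → U)
    (c : (v : ℕ) → Ω → C v) (b : (v : ℕ) → Ω → B v)
    (hc : ∀ v, Det p (fun ω => (c (v + 1) ω, Z ω)) (c v))
    (hb : ∀ v, Det p (fun ω => (c (v + 1) ω, Z ω)) (b v)) (n : ℕ) :
    ∑ v ∈ range n, Pool.KVA.MI p z (b v) (fun ω => (c v ω, Z ω)) ≤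
      CH p z (fun ω => (c 0 ω, Z ω)) := by
  refine le_trans (sum_le_sum (fun v _ => ?_)) (ti hp z Z c hc n)
  exact mi_mono hp z (fun ω ω' a a' e => hb v ω ω' a a' (by
    simp only [Prod.mk.injEq] at e ⊢
    exact ⟨e.1, e.2.2⟩))

end Pool.PC
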