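import Mathlib.MeasureTheory.Measure.Lebesgue.Basic
import Mathlib.MeasureTheory.Measure.Regular

/-!
# Integration without regularity

A function which loses at most `C y` over every interval of length `y`, and at most `ε x` over
some interval to the right of every good point, loses at most `ε` times the length plus `C` times
the measure of the bad points.
-/

set_option autoImplicit false

namespace Pool.PC

open MeasureTheory Set

/-- The version with an open set of bad points. -/
theorem int_open {Θ : ℝ → ℝ} {C ε a b : ℝ} (hC : 0 ≤ C) (hε : 0 ≤ ε) (hab : a ≤ b) {U : Set ℝ}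
    (hU : IsOpen U) (hfin : volume U ≠ ⊤)
    (hX : ∀ w y, a ≤ w → 0 ≤ y → w + y ≤ b → Θ w - C * y ≤ Θ (w + y))
    (hG : ∀ w, a ≤ w → w < b → w ∉ U → ∃ x, 0 < x ∧ w + x ≤ b ∧ Θ w - ε * x ≤ Θ (w + x)) :
    Θ a - ε * (b - a) - C * (volume U).toReal ≤ Θ b := by
  -- the measure of the bad points up to `w`
  set M : ℝ → ℝ := fun w => (volume (U ∩ Ioo a w)).toReal with hM
  have hfin' : ∀ w, volume (U ∩ Ioo a w) ≠ ⊤ := fun w =>
    ne_top_of_le_ne_top hfin (measure_mono inter_subset_left)
  have hMmono : ∀ w w', w ≤ w' → M w ≤ M w' := fun w w' h =>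
    ENNReal.toReal_mono (hfin' w')
      (measure_mono (inter_subset_inter_right _ (Ioo_subset_Ioo_right h)))
  have hMa : M a = 0 := by simp [hM]
  set F : ℝ → ℝ := fun w => Θ w + ε * w + C * M w with hF
  set S : Set ℝ := {w | w ∈ Icc a b ∧ F a ≤ F w} with hS
  have haS : a ∈ S := ⟨⟨le_refl a, hab⟩, le_refl _⟩
  have hbdd : BddAbove S := ⟨b, fun w hw => hw.1.2⟩
  have hne : S.Nonempty := ⟨a, haS⟩
  set s := sSup S with hs
  have has : a ≤ s := le_csSup hbdd haS
  have hsb : s ≤ b := csSup_le hne (fun w hw => hw.1.2)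
  -- the supremum belongs to `S`
  have hsS : s ∈ S := by
    refine ⟨⟨has, hsb⟩, ?_⟩
    by_contra hcon
    push Not at hcon
    have hd : 0 < F a - F s := by linarith
    obtain ⟨w, hw, hlt⟩ := exists_lt_of_lt_csSup hne
      (show s - (F a - F s) / (C + 1) < s from by
        have : 0 < (F a - F s) / (C + 1) := div_pos hd (by linarith)
        linarith)
    have hws : w ≤ s := le_csSup hbdd hw
    have h1 := hX w (s - w) hw.1.1 (by linarith) (by linarith)
    rw [show w + (s - w) = s from by ring] at h1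
    have h2 := hMmono w s hws
    have h3 : C * M w ≤ C * M s := mul_le_mul_of_nonneg_left h2 hC
    have h4 : ε * w ≤ ε * s := mul_le_mul_of_nonneg_left hws hε
    have h5 : F a ≤ F w := hw.2
    have h6 : C * (s - w) < F a - F s := by
      have e1 : s - w < (F a - F s) / (C + 1) := by linarith
      rw [lt_div_iff₀ (by linarith)] at e1
      nlinarith [sub_nonneg.2 hws]
    simp only [hF] at h5 h6
    linarith
  -- it is `b`
  have hsb' : s = b := by
    by_contra hne'
    have hlt : s < b := lt_of_le_of_ne hsb hne'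
    by_cases hsU : s ∈ U
    · obtain ⟨d, hd, hball⟩ := Metric.isOpen_iff.1 hU s hsU
      set y := min (d / 2) (b - s) with hy
      have hy0 : 0 < y := lt_min (by linarith) (by linarith)
      have hyd : y < d := lt_of_le_of_lt (min_le_left _ _) (by linarith)
      have hyb : s + y ≤ b := by
        have := min_le_right (d / 2) (b - s)
        linarith
      have h1 := hX s y has hy0.le hyb
      have h2 : M s + y ≤ M (s + y) := by
        have hsub : (U ∩ Ioo a s) ∪ Ioo s (s + y) ⊆ U ∩ Ioo a (s + y) := by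
          rintro x (⟨hx1, hx2⟩ | hx)
          · exact ⟨hx1, hx2.1, lt_of_lt_of_le hx2.2 (by linarith)⟩
          · refine ⟨hball ?_, lt_of_le_of_lt has hx.1, hx.2⟩
            rw [Metric.mem_ball, Real.dist_eq, abs_lt]
            exact ⟨by linarith [hx.1], by linarith [hx.2]⟩
        have hdisj : Disjoint (U ∩ Ioo a s) (Ioo s (s + y)) := by
          rw [Set.disjoint_left]
          rintro x ⟨_, hx2⟩ hx3
          exact absurd hx2.2 (not_lt.2 hx3.1.le)
        have e1 : volume (U ∩ Ioo a s) + volume (Ioo s (s + y)) ≤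
            volume (U ∩ Ioo a (s + y)) := by
          rw [← measure_union hdisj measurableSet_Ioo]
          exact measure_mono hsub
        have e2 := ENNReal.toReal_mono (hfin' (s + y)) e1
        rw [ENNReal.toReal_add (hfin' s) (by rw [Real.volume_Ioo]; exact ENNReal.ofReal_ne_top),
          Real.volume_Ioo, add_sub_cancel_left, ENNReal.toReal_ofReal hy0.le] at e2
        exact e2
      have h3 : C * (M s + y) ≤ C * M (s + y) := mul_le_mul_of_nonneg_left h2 hC
      have h4 : s + y ∈ S := by
        refine ⟨⟨by linarith, hyb⟩, ?_⟩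
        have h5 := hsS.2
        simp only [hF] at h5 ⊢
        nlinarith [mul_nonneg hε hy0.le]
      have := le_csSup hbdd h4
      linarith
    · obtain ⟨x, hx0, hxb, h1⟩ := hG s has hlt hsU
      have h4 : s + x ∈ S := by
        refine ⟨⟨by linarith, hxb⟩, ?_⟩
        have h5 := hsS.2
        have h6 := hMmono s (s + x) (by linarith)
        have h7 : C * M s ≤ C * M (s + x) := mul_le_mul_of_nonneg_left h6 hC
        simp only [hF] at h5 ⊢
        linarith [mul_add ε s x]
      have := le_csSup hbdd h4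
      linarith
  have h1 : F a ≤ F b := hsb' ▸ hsS.2
  have h2 : M b ≤ (volume U).toReal := ENNReal.toReal_mono hfin (measure_mono inter_subset_left)
  have h3 : C * M b ≤ C * (volume U).toReal := mul_le_mul_of_nonneg_left h2 hC
  simp only [hF, hMa] at h1
  linarith [mul_sub ε b a]

/-- Integration without regularity. -/
theorem int_thm {Θ : ℝ → ℝ} {C ε a b : ℝ} (hC : 0 ≤ C) (hε : 0 ≤ ε) (hab : a ≤ b) {B : Set ℝ}
    (hfin : volume B ≠ ⊤)
    (hX : ∀ w y, a ≤ w → 0 ≤ y → w + y ≤ b → Θ w - C * y ≤ Θ (w + y))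
    (hG : ∀ w, a ≤ w → w < b → w ∉ B → ∃ x, 0 < x ∧ w + x ≤ b ∧ Θ w - ε * x ≤ Θ (w + x)) :
    Θ a - ε * (b - a) - C * (volume B).toReal ≤ Θ b := by
  refine le_of_forall_pos_le_add (fun δ hδ => ?_)
  obtain ⟨U, hBU, hU, hlt⟩ := B.exists_isOpen_lt_of_lt (volume B + ENNReal.ofReal (δ / (C + 1)))
    (ENNReal.lt_add_right hfin (by
      rw [ne_eq, ENNReal.ofReal_eq_zero, not_le]
      exact div_pos hδ (by linarith)))
  have hUfin : volume U ≠ ⊤ := (lt_of_lt_of_le hlt le_top).ne
  have h1 := int_open hC hε hab hU hUfin hX (fun w h1 h2 h3 => hG w h1 h2 (fun h => h3 (hBU h)))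
  have h2 : (volume U).toReal ≤ (volume B).toReal + δ / (C + 1) := by
    have e := ENNReal.toReal_mono (ENNReal.add_ne_top.2 ⟨hfin, ENNReal.ofReal_ne_top⟩) hlt.le
    rwa [ENNReal.toReal_add hfin ENNReal.ofReal_ne_top,
      ENNReal.toReal_ofReal (div_nonneg hδ.le (by linarith))] at e
  have h3 : C * (volume U).toReal ≤ C * ((volume B).toReal + δ / (C + 1)) :=
    mul_le_mul_of_nonneg_left h2 hC
  have h4 : C * (δ / (C + 1)) ≤ δ := by
    rw [← mul_div_assoc, div_le_iff₀ (by linarith)]
    nlinarith
  linarith [mul_add C (volume B).toReal (δ / (C + 1))]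

end Pool.PC
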