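import Pool.Agent.H15.PC.Fam
import Pool.Agent.H40.PC.Time

/-!
# Plan C: the times of one family

`tim_of_tgd`: a small defect of the times gives `Tim`.
-/

set_option autoImplicit false

namespace Pool.PC

open Finset Real
open Pool.Agent.H49.Ent Pool.Agent.H32.Dense Pool.STK Pool.KA Pool.KSAT Pool.K2S Pool.LK

/-- **(TIM)** Times with live windows: the near pairs are located, on all events. -/
theorem tim_of_tgd (K : ℕ) {η h : ℝ} (hη : 0 < η) (hh : 0 < h) : ∃ τ > 0, ∃ J₀ : ℕ, ∀ J ≥ J₀,
    ∀ F : Fam 2 J, F.TGD False K η 0 (η * J) (τ * J) → Tim F K η h := by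
  obtain ⟨J₀, hJ₀⟩ := exists_nat_ge (K * |Real.log (1 / h)| / (h / 2) / (h / 4))
  refine ⟨h * h / (8 * (K + 1)), by positivity, J₀ + 1, fun J hJ F hF => ?_⟩
  obtain ⟨D, h1, h2, h3⟩ := time_int hη.le hF
  have hJp : (0 : ℝ) ≤ J := Nat.cast_nonneg J
  refine ⟨D, fun v => (h1 v).1, fun v => (h1 v).2, ?_, ?_⟩
  · have := h2 0 J (Nat.zero_le J) le_rfl
    rw [← Finset.range_eq_Ico] at this
    linarith
  · intro E hE a b hab hb
    have hPE : 0 < Pe F.p E := hh.trans_le hE
    have h4 := h3 (h / 2) (Pe F.p E) (by positivity) hPE E le_rfl a b hab hb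
    have h5 : K * (h * h / (8 * (K + 1)) * J + Real.log (1 / Pe F.p E)) / (h / 2) ≤
        h / 2 * J := by
      have k1 : Real.log (1 / Pe F.p E) ≤ |Real.log (1 / h)| := by
        refine le_trans ?_ (le_abs_self _)
        exact Real.log_le_log (by positivity) (one_div_le_one_div_of_le hh hE)
      have k2 : (K : ℝ) * (h * h / (8 * (K + 1)) * J) / (h / 2) ≤ h / 4 * J := by
        have e : (K : ℝ) * (h * h / (8 * (K + 1)) * J) / (h / 2) = K / (K + 1) * (h / 4 * J) := by
          field_simp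
          ring
        rw [e]
        have k3 : (K : ℝ) / (K + 1) ≤ 1 := by
          rw [div_le_one (by positivity)]
          linarith
        have k4 : 0 ≤ h / 4 * (J : ℝ) := by positivity
        nlinarith
      have k5 : (K : ℝ) * Real.log (1 / Pe F.p E) / (h / 2) ≤ h / 4 * J := by
        have k6 : (K : ℝ) * Real.log (1 / Pe F.p E) / (h / 2) ≤
            K * |Real.log (1 / h)| / (h / 2) := by
          gcongr
        refine k6.trans ?_
        have k7 : (J₀ : ℝ) ≤ J := by exact_mod_cast (by omega : J₀ ≤ J)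
        have k8 := hJ₀.trans k7
        rw [div_le_iff₀ (by positivity)] at k8
        linarith
      have e : K * (h * h / (8 * (K + 1)) * J + Real.log (1 / Pe F.p E)) / (h / 2) =
        (K : ℝ) * (h * h / (8 * (K + 1)) * J) / (h / 2) +
          K * Real.log (1 / Pe F.p E) / (h / 2) := by ring
      rw [e]
      linarith
    have h6 : ∑ v ∈ Ico a b, Pe (dbl (Pool.Agent.H49.Ent.cond F.p E True) (slam F v))
          (fun x => |(F.T x.1 : ℝ) - F.T x.2| < 2 ^ (J - (v + K))) =
        ∑ v ∈ Ico a b, Pool.KAF.Pr (dbl (Pool.Agent.H49.Ent.cond F.p E True) (slam F v))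
            {x | |(F.T x.1 : ℝ) - F.T x.2| < 2 ^ (J - (v + K))} := rfl
    have h7 : h / 2 * ((b : ℝ) - a) ≤ h / 2 * J := by
      have : (b : ℝ) ≤ J := by exact_mod_cast (by omega : b ≤ J)
      have h8 : (0 : ℝ) ≤ a := Nat.cast_nonneg a
      exact mul_le_mul_of_nonneg_left (by linarith) (by positivity)
    rw [h6]
    linarith

end Pool.PC
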